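import Pool.Agent.MWV.Stmts

/-!
MWV, row TAU: the case of the moved letter `x` and the watched letter `y`.
-/

namespace Pool.Agent.MWV.H23

open Pool.Agent.Helper14_MV Pool.Agent.Helper2_MV

theorem lgt_heavy {s : List ℕ} (h : ∀ a ∈ s, a % 3 = 0) : lgt s = [] := by
  unfold lgt
  rw [List.filter_eq_nil_iff]
  intro a ha
  simp [h a ha]

theorem lgt_append (a b : List ℕ) : lgt (a ++ b) = lgt a ++ lgt b := by
  unfold lgt
  exact List.filter_append ..

theorem lgt_one (e : ℕ) : lgt [3 * e + 1] = [3 * e + 1] := by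
  unfold lgt
  rw [List.filter_cons_of_pos]
  · rfl
  · have : (3 * e + 1) % 3 ≠ 0 := by omega
    simpa using this

theorem lgt_cr (g : ℕ → Bool) (s : List ℕ) (hs : ∀ a ∈ s, a % 3 = 0) (d : ℕ) :
    ∀ k, lgt (cr g s d k) = (List.range (k + 1)).map (fun i => 3 * (d + i) + 1)
  | 0 => by
    rw [cr, lgt_one]
    rfl
  | k + 1 => by
    have hm : ∀ a ∈ mk g (k + 1), a % 3 = 0 := by
      intro a ha
      unfold mk at ha
      by_cases hg : g (k + 1) = true
      · rw [if_pos hg, List.mem_singleton] at ha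
        omega
      · rw [if_neg hg] at ha
        simp at ha
    rw [cr, lgt_append, lgt_append, lgt_append, lgt_cr g s hs d k, lgt_heavy hm, lgt_heavy hs,
      lgt_one, List.range_succ (n := k + 1), List.map_append]
    rfl

theorem kinds (K : ℕ → Prop) (k : ℕ) (ζ : ℕ → ℕ)
    (h1 : ∀ i < k + 2, (K (ζ i) ↔ K i) ∧ 1 ≤ ζ i ∧ ζ i ≤ k + 2)
    (h2 : ∀ j, 1 ≤ j → j ≤ k + 2 → ∃ i < k + 2, ζ i = j)
    (h3 : ∀ i < k + 2, ∀ j < k + 2, ζ i = ζ j → i = j) : K (k + 2) ↔ K 0 := by
  classical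
  have c1 : ((Finset.range (k + 2)).filter K).card = ((Finset.Ico 1 (k + 3)).filter K).card := by
    apply Finset.card_bij (fun i _ => ζ i)
    · intro i hi
      rw [Finset.mem_filter, Finset.mem_range] at hi
      rw [Finset.mem_filter, Finset.mem_Ico]
      have := h1 i hi.1
      exact ⟨⟨by omega, by omega⟩, this.1.2 hi.2⟩
    · intro i hi j hj h
      rw [Finset.mem_filter, Finset.mem_range] at hi hj
      exact h3 i hi.1 j hj.1 h
    · intro j hj
      rw [Finset.mem_filter, Finset.mem_Ico] at hj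
      obtain ⟨i, hi, hij⟩ := h2 j hj.1.1 (by omega)
      refine ⟨i, ?_, hij⟩
      rw [Finset.mem_filter, Finset.mem_range]
      exact ⟨hi, (h1 i hi).1.1 (by rw [hij]; exact hj.2)⟩
  have e1 : Finset.range (k + 2) = insert 0 (Finset.Ico 1 (k + 2)) := by
    ext x
    rw [Finset.mem_range, Finset.mem_insert, Finset.mem_Ico]
    omega
  have e2 : Finset.Ico 1 (k + 3) = insert (k + 2) (Finset.Ico 1 (k + 2)) := by
    ext x
    rw [Finset.mem_insert, Finset.mem_Ico, Finset.mem_Ico]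
    omega
  have n1 : (0 : ℕ) ∉ (Finset.Ico 1 (k + 2)).filter K := by
    rw [Finset.mem_filter, Finset.mem_Ico]
    omega
  have n2 : (k + 2) ∉ (Finset.Ico 1 (k + 2)).filter K := by
    rw [Finset.mem_filter, Finset.mem_Ico]
    omega
  rw [e1, e2, Finset.filter_insert, Finset.filter_insert] at c1
  by_cases a : K 0 <;> by_cases b : K (k + 2)
  · exact ⟨fun _ => a, fun _ => b⟩
  · rw [if_pos a, if_neg b, Finset.card_insert_of_notMem n1] at c1
    omega
  · rw [if_neg a, if_pos b, Finset.card_insert_of_notMem n2] at c1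
    omega
  · exact ⟨fun h => absurd h b, fun h => absurd h a⟩

theorem comb (K : ℕ → Prop) (k : ℕ) (ζ : ℕ → ℕ)
    (h1 : ∀ i < k + 2, (K (ζ i) ↔ K i) ∧ 1 ≤ ζ i ∧ ζ i ≤ k + 2)
    (h2 : ∀ j, 1 ≤ j → j ≤ k + 2 → ∃ i < k + 2, ζ i = j)
    (h3 : ∀ i < k + 2, ∀ j < k + 2, ζ i = ζ j → i = j)
    (h4 : ∀ i < k + 2, ∀ i' < k + 2, ζ i < ζ i' →
      ((K (ζ i) ↔ K (ζ i')) → ((K (ζ i) ↔ K 0) ∨ (K (ζ i) ↔ K (k + 2)))) → i < i') :
    (∀ i ≤ k + 2, (K i ↔ K 0)) ∧ ζ 0 = 1 ∧ ζ 1 = 2 := by
  classical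
  have hk := kinds K k ζ h1 h2 h3
  have hall : ∀ i ≤ k + 2, (K i ↔ K 0) := by
    by_contra hcon
    push Not at hcon
    obtain ⟨j0, hj0, hj0'⟩ := hcon
    have hj0n : ¬ (K j0 ↔ K 0) := by
      rcases hj0' with ⟨a, b⟩ | ⟨a, b⟩
      · exact fun h => b (h.1 a)
      · exact fun h => a (h.2 b)
    obtain ⟨j, hj, hjp, hjm⟩ : ∃ j ≤ k + 2, ¬ (K j ↔ K 0) ∧
        ∀ l, j < l → l ≤ k + 2 → (K l ↔ K 0) := by
      refine ⟨Nat.findGreatest (fun i => ¬ (K i ↔ K 0)) (k + 2), Nat.findGreatest_le _,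
        Nat.findGreatest_spec (P := fun i => ¬ (K i ↔ K 0)) hj0 hj0n, fun l hl hl' => ?_⟩
      exact not_not.1 (Nat.findGreatest_is_greatest hl hl')
    have hj2 : j < k + 2 := by
      rcases Nat.lt_or_ge j (k + 2) with h | h
      · exact h
      · exact absurd (by rw [show j = k + 2 by omega]; exact hk) hjp
    obtain ⟨hK, hz1, hz2⟩ := h1 j hj2
    have hzj : ζ j ≤ j := by
      by_contra hlt
      exact hjp (hK.symm.trans (hjm (ζ j) (by omega) hz2))
    have hsub : Finset.Icc (j + 1) (k + 2) ⊆ (Finset.Ioo j (k + 2)).image ζ := by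
      intro l hl
      rw [Finset.mem_Icc] at hl
      obtain ⟨i, hi, hil⟩ := h2 l (by omega) hl.2
      rw [Finset.mem_image]
      refine ⟨i, ?_, hil⟩
      rw [Finset.mem_Ioo]
      refine ⟨h4 j hj2 i hi (by omega) (fun h => ?_), hi⟩
      exfalso
      rw [hil] at h
      exact hjp (hK.symm.trans (h.trans (hjm l (by omega) hl.2)))
    have hc := (Finset.card_le_card hsub).trans Finset.card_image_le
    rw [Nat.card_Icc, Nat.card_Ioo] at hc
    omega
  have h5 : ∀ i < k + 2, ∀ i' < k + 2, ζ i < ζ i' → i < i' := by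
    intro i hi i' hi' hlt
    exact h4 i hi i' hi' hlt (fun _ => Or.inl (hall _ (h1 i hi).2.2))
  have z0 : ζ 0 = 1 := by
    obtain ⟨i, hi, hi1⟩ := h2 1 (by omega) (by omega)
    have := (h1 0 (by omega)).2.1
    by_contra hne
    have := h5 i hi 0 (by omega) (by omega)
    omega
  refine ⟨hall, z0, ?_⟩
  obtain ⟨i, hi, hi2⟩ := h2 2 (by omega) (by omega)
  have h6 := (h1 1 (by omega)).2.1
  have h7 : ζ 1 ≠ 1 := fun h => by
    have := h3 1 (by omega) 0 (by omega) (by omega)
    omega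
  by_contra hne
  have := h5 i hi 1 (by omega) (by omega)
  have hi0 : i = 0 := by omega
  rw [hi0] at hi2
  omega

theorem split_order (F : ℕ → ℕ) (n : ℕ) (L : List ℕ)
    (hL : lgt L = (List.range n).map F) {i i' : ℕ} (hi : i < n) (hii : i' < i) :
    ∃ u v, L = u ++ F i' :: v ∧ F i ∈ v := by
  have hm : i' ∈ List.range n := List.mem_range.2 (by omega)
  obtain ⟨A, B, hAB⟩ := List.append_of_mem hm
  have hpw : (List.range n).Pairwise (fun a b => a < b) := List.pairwise_lt_range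
  have hiB : i ∈ B := by
    have hin : i ∈ A ++ i' :: B := by
      rw [← hAB]
      exact List.mem_range.2 hi
    rw [hAB, List.pairwise_append] at hpw
    rcases List.mem_append.1 hin with h | h
    · have := hpw.2.2 i h i' List.mem_cons_self
      omega
    · rcases List.mem_cons.1 h with h | h
      · omega
      · exact h
  rw [hAB, List.map_append, List.map_cons] at hL
  unfold lgt at hL
  obtain ⟨l1, l2, e1, -, e2⟩ := List.filter_eq_append_iff.1 hL
  obtain ⟨l3, l4, e3, -, -, e4⟩ := List.filter_eq_cons_iff.1 e2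
  refine ⟨l1 ++ l3, l4, by rw [e1, e3, List.append_assoc], ?_⟩
  have : F i ∈ l4.filter (fun a => decide (a % 3 ≠ 0)) := by
    rw [e4]
    exact List.mem_map_of_mem hiB
  exact (List.mem_filter.1 this).1

theorem W_inj {P Q L L' : List ℕ} (h : W P Q L = W P Q L') : L = L' := by
  unfold W at h
  have h1 := List.append_cancel_left h
  exact List.append_cancel_right (List.cons.inj h1).2

theorem im_X (N : ℕ) (f : ℕ → List ℕ) (h : ℕ) {a : ℕ} (ha : a ∈ im N f (X N h)) : a ∈ f h := by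
  unfold im at ha
  rw [List.mem_flatMap] at ha
  obtain ⟨b, hb, hab⟩ := ha
  have hbh : b = h := List.eq_of_mem_replicate hb
  subst hbh
  by_cases h3 : b % 3 = 0
  · rw [if_pos h3, List.mem_flatten] at hab
    obtain ⟨l, hl, hal⟩ := hab
    rw [List.eq_of_mem_replicate hl] at hal
    exact hal
  · rw [if_neg h3] at hab
    exact hab

theorem cr_head (g : ℕ → Bool) (s : List ℕ) (d : ℕ) : ∀ k, ∃ r, cr g s d k = (3 * d + 1) :: r
  | 0 => ⟨[], rfl⟩
  | k + 1 => by
    obtain ⟨r, hr⟩ := cr_head g s d k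
    exact ⟨_, by rw [cr, hr]; rfl⟩

theorem ll_congr (N : ℕ) (S : List ℕ → List ℕ → Prop) {Q Q' : List ℕ} {i j : ℕ}
    (h : i ∈ Q ↔ j ∈ Q') (hl : ll N S Q i) : ll N S Q' j :=
  ⟨fun a => hl.1 (h.2 a), fun a => hl.2 (fun b => a (h.1 b))⟩

theorem rr_congr (N : ℕ) (S : List ℕ → List ℕ → Prop) {Q Q' : List ℕ} {i j : ℕ}
    (h : i ∈ Q ↔ j ∈ Q') (hl : rr N S Q i) : rr N S Q' j :=
  ⟨fun a => hl.1 (h.2 a), fun a => hl.2 (fun b => a (h.1 b))⟩

/-- **TAU**. -/
theorem tau (ppm : PpmStmt) (lbk : LbkStmt) (dcb : DcbStmt) (ord : OrdStmt) (mkp : MkpStmt)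
    (cv2 : Cv2Stmt) : TauStmt := by
  intro N S P Q g k f s α1 γ1 H hs hF hS hf3 hin
  obtain ⟨pm, pk, p0, pk2⟩ := ppm k P Q H.kp H.pm
  have hN := H.wo.pos
  have hlgt : lgt (1 :: (X N 3 ++ cr g s 1 k)) =
      (List.range (k + 2)).map (fun i => 3 * (0 + i) + 1) := by
    have e1 : (1 :: (X N 3 ++ cr g s 1 k)) = [3 * 0 + 1] ++ (X N 3 ++ cr g s 1 k) := rfl
    have hX : ∀ a ∈ X N 3, a % 3 = 0 := by
      intro a ha
      rw [List.eq_of_mem_replicate ha]
    rw [e1, lgt_append, lgt_append, lgt_one, lgt_heavy hX, lgt_cr g s hs 1 k,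
      List.range_succ_eq_map (n := k + 1), List.map_cons, List.map_map]
    rw [List.nil_append, List.singleton_append]
    congr 1
    apply List.map_congr_left
    intro a _
    simp only [Function.comp]
    omega
  obtain ⟨ζ, hz, hzl, hzo, hzi⟩ := cv2 N f k (PP k P) (PP k Q) 0
    (1 :: (X N 3 ++ cr g s 1 k)) α1 γ1 1 0 hN pm le_rfl (by omega) hF hlgt
    (fun i h1 h2 => hin i h1 (by omega))
  obtain ⟨L1, hL1, hOk, hcont⟩ := dcb N S P Q g k 1 _ H le_rfl hS
  have hLM := W_inj hL1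
  subst hLM
  have hcnt : ∀ e ≤ k + 2, (α1 ++ (im N f (X N 0) ++
        (im N f (1 :: (X N 3 ++ cr g s 1 k)) ++ (im N f (X N 0) ++ γ1)))).count (3 * e + 1) = 1 := by
    intro e he
    apply hOk.one e
    exact pm.mem_iff.2 (List.mem_range.2 (by omega))
  obtain ⟨hall, z0, z1⟩ := comb (fun i => i ∈ PP k Q) k ζ
    (fun i hi => by
      have := hz i hi
      rw [Nat.zero_add] at this
      exact ⟨this.2.1, this.2.2.1, by omega⟩)
    (fun j hj hj' => hzo j hj (by omega)) hzi
    (fun i hi i' hi' hlt hK => by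
      by_contra hcon
      have hne : i ≠ i' := by
        rintro rfl
        omega
      obtain ⟨u, v, huv, hv⟩ := split_order (fun i => 3 * ζ i + 1) (k + 2) _ hzl hi
        (show i' < i by omega)
      have hzi2 := (hz i' hi').2.2.2
      have hzi1 := (hz i hi).2.2.2
      have hc := hcnt (ζ i) (by omega)
      rw [huv] at hS hc
      have e1 : α1 ++ (im N f (X N 0) ++ ((u ++ (3 * ζ i' + 1) :: v) ++
          (im N f (X N 0) ++ γ1))) = (α1 ++ (im N f (X N 0) ++ u)) ++ (3 * ζ i' + 1) ::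
          (v ++ (im N f (X N 0) ++ γ1)) := by
        simp only [List.append_assoc, List.cons_append]
      rw [e1] at hS hc
      have hm := ord N S P Q g k 1 (ζ i) (ζ i') _ _ H le_rfl hlt (by omega) hK hS
      rw [List.count_append] at hc
      have c1 : 0 < (α1 ++ (im N f (X N 0) ++ u)).count (3 * ζ i + 1) := List.count_pos_iff.2 hm
      have c2 : 0 < ((3 * ζ i' + 1) :: (v ++ (im N f (X N 0) ++ γ1))).count (3 * ζ i + 1) :=
        List.count_pos_iff.2 (List.mem_cons_of_mem _ (List.mem_append_left _ hv))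
      omega)
  -- all lights of one kind
  have hkind : ∀ i ≤ k, (i ∈ Q ↔ 0 ∈ Q) := by
    intro i hi
    exact ((pk i hi).1.symm.trans (hall (i + 1) (by omega))).trans p0
  have hnl : ∀ i ≤ k, ¬ ll N S Q i := by
    intro i hi h
    exact H.fc.nl (ll_congr N S ((hkind i hi).trans (hkind k le_rfl).symm) h)
  have hg1 : g 1 = true := by
    rw [H.hg 1 le_rfl H.kp]
    rintro ⟨h, -, -⟩
    exact hnl 0 (by omega) (h 0 (by omega))
  -- the two lights at the left end
  have f1 : f 1 = [4] := by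
    have := (hz 0 (by omega)).1
    rw [z0] at this
    exact this
  have f4 : f 4 = [7] := by
    have := (hz 1 (by omega)).1
    rw [z1] at this
    exact this
  obtain ⟨r, hr⟩ := cr_head g s 1 k
  have him : im N f (1 :: (X N 3 ++ cr g s 1 k)) =
      4 :: (im N f (X N 3) ++ 7 :: im N f r) := by
    rw [hr]
    unfold im
    rw [List.flatMap_cons, List.flatMap_append, List.flatMap_cons]
    rw [if_neg (by omega), if_neg (by omega), f1, f4]
    rfl
  -- the marker
  have hc6 : (6 : ℕ) ∈ Lb N g k 1 := by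
    have := (lbk N g k 1 P Q hN H.kp le_rfl H.pm).2.1 6 (by omega)
    exact this.2 (Or.inr ⟨1, le_rfl, H.kp, hg1, rfl⟩)
  have hmem := (hcont 6).2 hc6
  rw [him] at hS hmem
  have e1 : α1 ++ (im N f (X N 0) ++ ((4 :: (im N f (X N 3) ++ 7 :: im N f r)) ++
      (im N f (X N 0) ++ γ1))) = (α1 ++ im N f (X N 0)) ++ (3 * 1 + 1) ::
      (im N f (X N 3) ++ 7 :: im N f r ++ (im N f (X N 0) ++ γ1)) := by
    simp only [List.append_assoc, List.cons_append]
  have e2 : α1 ++ (im N f (X N 0) ++ ((4 :: (im N f (X N 3) ++ 7 :: im N f r)) ++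
      (im N f (X N 0) ++ γ1))) = (α1 ++ (im N f (X N 0) ++ 4 :: im N f (X N 3))) ++ (3 * 2 + 1) ::
      (im N f r ++ (im N f (X N 0) ++ γ1)) := by
    simp only [List.append_assoc, List.cons_append]
  have hS1 := hS
  have hS2 := hS
  rw [e1] at hS1
  rw [e2] at hS2
  have n1 : (6 : ℕ) ∉ α1 ++ im N f (X N 0) := by
    intro h
    have := (mkp N S P Q g k 1 1 1 _ _ H le_rfl (by omega) le_rfl H.kp hg1 hS1).1 le_rfl h
    exact hnl 0 (by omega) (ll_congr N S ((hall 1 (by omega)).trans p0) this)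
  have n2 : (6 : ℕ) ∉ im N f r ++ (im N f (X N 0) ++ γ1) := by
    intro h
    have := (mkp N S P Q g k 1 2 1 _ _ H le_rfl (by omega) le_rfl H.kp hg1 hS2).2 (by omega) h
    exact H.fc.nr (rr_congr N S ((hall 2 (by omega)).trans p0) this)
  rw [e2] at hmem
  rcases List.mem_append.1 hmem with h | h
  · have h6 : (6 : ℕ) ∈ im N f (X N 3) := by
      rcases List.mem_append.1 h with h | h
      · exact absurd (List.mem_append_left _ h) n1
      · rcases List.mem_append.1 h with h | h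
        · exact absurd (List.mem_append_right _ h) n1
        · rcases List.mem_cons.1 h with h | h
          · omega
          · exact h
    have h7 := hf3 6 (im_X N f 3 h6) (by omega)
    exact n2 (List.mem_append_right _ (List.mem_append_right _ h7))
  · rcases List.mem_cons.1 h with h | h
    · omega
    · exact n2 h

end Pool.Agent.MWV.H23
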